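import Pool.Agent.Helper84.Tet.Final
set_option autoImplicit false
namespace Pool.Agent.Results.MP_3d065d_co.BelowTetrahedron
open Pool.Agent.Helper84.Tet
open scoped Pointwise

/-- The regular tetrahedron, whose lattice packing density is `18/49`, is not a minimiser of the
lattice packing density `δ_L`, not even a local one: arbitrarily close to it there are convex
bodies `K` with `δ_L(K) < 18/49`. In particular the minimum `m_L` of `δ_L` is smaller than
`18/49`. -/
theorem result :
    mL < 18 / 49 ∧
    ∀ ε : ℝ, 0 < ε → ∃ K : Set E3, IsConvexBody K ∧ tetrahedron ⊆ K ∧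
      K ⊆ (1 + ε) • tetrahedron ∧ deltaL K < 18 / 49 := by
  refine ⟨?_, fun ε hε => main ε hε⟩
  obtain ⟨K, hK, _, _, hlt⟩ := main 1 one_pos
  refine lt_of_le_of_lt ?_ hlt
  unfold mL
  exact iInf_le_of_le K (iInf_le_of_le hK le_rfl)

end Pool.Agent.Results.MP_3d065d_co.BelowTetrahedron
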