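import Pool.Agent.Helper84.Dbl.Opt
set_option autoImplicit false
namespace Pool.Agent.Results.MP_3d065d_co.DoubleLatticeTetra
open Pool.Agent.Helper84.Tet (E3 tetrahedron)
open Pool.Agent.Helper84.Dbl

/-- The double lattice packing density of the regular tetrahedron is exactly
`(139 + 40 √10)/369 = 0.71948...`, and therefore `m_{L*} ≤ (139 + 40 √10)/369`. -/
theorem result :
    deltaLstar tetrahedron = ENNReal.ofReal ((139 + 40 * Real.sqrt 10) / 369) ∧
    mLstar ≤ ENNReal.ofReal ((139 + 40 * Real.sqrt 10) / 369) :=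
  ⟨deltaLstar_tetrahedron, (mLstar_le_tetrahedron).trans upper⟩

end Pool.Agent.Results.MP_3d065d_co.DoubleLatticeTetra
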