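import Pool.Agent.Helper84.GVN.Bridge

/-!
Local rigidity of isomorphisms of group von Neumann algebras of groups with a Kazhdan pair:
a trace preserving isomorphism `L(Γ) → L(Λ)`, `Λ` icc, which is close to group-like on the set `S`
of a Kazhdan pair `(S, κ)` of `Γ` is, up to a character and conjugation by a unitary, induced by a
group isomorphism.
-/

namespace Pool.Agent.Helper84.Keep.LocalRigidity

open Pool.Agent.Helper84.GVN

/-- Let `(S, κ)` be a Kazhdan pair of `Γ`, let `Λ` be an icc group, and let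
`θ : L(Γ) → L(Λ)` be a trace preserving `*`-isomorphism such that every `θ(u_s)`, `s ∈ S`, has a
Fourier coefficient of modulus at least `1 - κ² / 320`. Then there are a group isomorphism
`φ : Γ → Λ`, a character `χ` of `Γ` and a unitary `w ∈ L(Λ)` with
`θ(u_g) = χ(g) w u_{φ(g)} w^*` for all `g`. -/
theorem result {Γ Λ : Type} [Group Γ] [Group Λ] {S : Set Γ} {κ : ℝ}
    (hK : IsKazhdanPair Γ S κ)
    (hicc : ∀ k : Λ, k ≠ 1 → (Set.range fun h : Λ => h * k * h⁻¹).Infinite)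
    (θ : LH Γ ≃⋆ₐ[ℂ] LH Λ) (hτ : ∀ x : LH Γ, (θ x).tr = x.tr)
    (hS : ∀ s ∈ S, ∃ h : Λ, 1 - κ ^ 2 / 320 ≤ ‖(θ (LH.u s)).coeff h‖) :
    ∃ (φ : Γ ≃* Λ) (χ : Γ →* Circle), ∃ w ∈ unitary (LH Λ),
      ∀ g : Γ, θ (LH.u g) = (χ g : ℂ) • (w * LH.u (φ g) * star w) :=
  local_rigidity' hK hicc θ hτ hS

end Pool.Agent.Helper84.Keep.LocalRigidity
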