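import Pool.Agent.Helper84.TS.Fin
import Pool.Agent.Helper84.TS.TetEq
import Pool.Agent.Helper84.TT.Fd

/-!
# The regular tetrahedron has smaller `δ_{T*}` than the ball

The upper bound holds for all packings by translates of `T` and of `-T`. It follows from a
finite-dimensional inequality (`FD (613/200)`, proved in `Pool.Agent.Helper84.TT.Fd` by cases), the
lower bound for the ball from the face-centred cubic lattice packing.
-/

set_option autoImplicit false

namespace Pool.Agent.Results.MP_3d065d_co.TetrahedronBelowBall

open Pool.Agent.Helper59.Pack Pool.Agent.Helper84.TS Metric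
open Pool.Agent.Helper84.Tet (E3 tetrahedron)
open scoped ENNReal

/-- `δ_{T*}` of the regular tetrahedron is at most `0.7404`, while `δ_{T*}` of the unit ball is at
least `π / √18 = 0.74048…`; hence `m_{T*} ≤ 0.7404 < δ_{T*}(ball)` and the ball is not a
minimiser of `δ_{T*}`. -/
theorem result :
    deltaTstar tetrahedron ≤ ENNReal.ofReal (7404 / 10000) ∧
      ENNReal.ofReal (7404 / 10000) < ENNReal.ofReal (Real.pi / √18) ∧
      ENNReal.ofReal (Real.pi / √18) ≤ deltaTstar (closedBall (0 : E3) 1) ∧
      mTstar ≤ ENNReal.ofReal (7404 / 10000) ∧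
      mTstar < deltaTstar (closedBall (0 : E3) 1) := by
  obtain ⟨h1, h2, h3, h4⟩ := final Pool.Agent.Helper84.TT.fd
  rw [tet_eq] at h1
  exact ⟨h1, h2, h3, h4, h4.trans_lt (h2.trans_le h3)⟩

end Pool.Agent.Results.MP_3d065d_co.TetrahedronBelowBall
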